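import Pool.Agent.Helper46.C2.St

/-!
Project C2, module GA: basic identities in the group
-/

set_option autoImplicit false

namespace Pool.Agent.Helper36.C2

open Pool.Agent.Helper46.C2 Pool.Agent.Helper43.GD

variable {G : Type} [Group G]

theorem cj_mul' (x y t : G) (j : ℤ) : cj (x * y) t j = cj x t j * cj y t j := by
  unfold cj
  group

theorem cj_inv' (x t : G) (j : ℤ) : cj x⁻¹ t j = (cj x t j)⁻¹ := by
  unfold cj
  group

theorem cj_pow' (x t : G) (j : ℤ) (m : ℕ) : cj (x ^ m) t j = cj x t j ^ m := by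
  induction m with
  | zero =>
    unfold cj
    simp
  | succ m ih => rw [pow_succ, pow_succ, cj_mul', ih]

theorem conj_pow3 (w h : G) (m : ℕ) : w * h ^ m * w⁻¹ = (w * h * w⁻¹) ^ m := by
  rw [conj_pow]

/-- the element `h` -/
theorem ex_h (a w : G) (h1 : a * w * a = w * a * w⁻¹) :
    ∃ h : G, w * h * w⁻¹ = h ^ 2 ∧ a = h ^ 2 * w⁻¹ ∧ a * a * (w * w) = h ^ 3 := by
  have hh : (w⁻¹ * a * (w * w)) ^ 2 = a * w := by
    calc (w⁻¹ * a * (w * w)) ^ 2 = w⁻¹ * (a * w * a) * (w * w) := by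
          rw [pow_two]; group
      _ = w⁻¹ * (w * a * w⁻¹) * (w * w) := by rw [h1]
      _ = a * w := by group
  refine ⟨w⁻¹ * a * (w * w), ?_, ?_, ?_⟩
  · rw [hh]
    group
  · rw [hh]
    group
  · calc a * a * (w * w) = (a * w) * (w⁻¹ * a * (w * w)) := by group
      _ = (w⁻¹ * a * (w * w)) ^ 2 * (w⁻¹ * a * (w * w)) := by rw [hh]
      _ = (w⁻¹ * a * (w * w)) ^ 3 := by rw [← pow_succ]

theorem hGA : StGA := by
  intro G _ k a w t hR j
  obtain ⟨h1, h2, -⟩ := hR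
  obtain ⟨h, hw, ha, he⟩ := ex_h a w h1
  set e := a * a * (w * w) with hedef
  -- conjugation of powers of `t`
  have ht1 : w * t * w⁻¹ = t⁻¹ := by
    have h3 : t = w * t⁻¹ * w⁻¹ := by rw [← h2]; group
    have h4 : w * t * w⁻¹ = (w * t⁻¹ * w⁻¹)⁻¹ := by group
    rw [h4, ← h3]
  have htp : ∀ m : ℤ, w * t ^ m * w⁻¹ = t ^ (-m) := by
    intro m
    have h3 := conj_zpow (i := m) (a := w) (b := t)
    rw [← h3, ht1, inv_zpow, zpow_neg]
  have hwe : w * e * w⁻¹ = e ^ 2 := by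
    rw [he, conj_pow3, hw, ← pow_mul, ← pow_mul]
  have hz : (w * w) * t = t * (w * w) := by
    have h3 : (w * w) * t * (w * w)⁻¹ = w * (w * t * w⁻¹) * w⁻¹ := by group
    have h4 : w * t⁻¹ * w⁻¹ = t := by
      have h5 := htp (-1)
      simpa using h5
    rw [ht1, h4] at h3
    exact mul_inv_eq_iff_eq_mul.1 h3
  have hzt : ∀ m : ℤ, (w * w) * t ^ m = t ^ m * (w * w) := fun m =>
    (Commute.zpow_right (show Commute (w * w) t from hz) m).eq
  have hzj : cj (w * w) t j = w * w := by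
    show t ^ (-j) * (w * w) * t ^ j = w * w
    rw [mul_assoc, hzt, ← mul_assoc, ← zpow_add, neg_add_cancel, zpow_zero, one_mul]
  -- (1)
  have e1 : ∀ i : ℤ, w * ee a w t i * w⁻¹ = ee a w t (-i) ^ 2 := by
    intro i
    have h3 : w * ee a w t i * w⁻¹ = (w * t ^ (-i) * w⁻¹) * (w * e * w⁻¹) * (w * t ^ i * w⁻¹) := by
      show w * (t ^ (-i) * e * t ^ i) * w⁻¹ = _
      group
    rw [h3, htp, htp, hwe]
    show _ = cj e t (-i) ^ 2
    rw [← cj_pow']
    rfl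
  have e2 : (w * w) * ee a w t j * (w * w)⁻¹ = ee a w t j ^ 4 := by
    have h3 : (w * w) * ee a w t j * (w * w)⁻¹ = w * (w * ee a w t j * w⁻¹) * w⁻¹ := by group
    rw [h3, e1, conj_pow3, e1, neg_neg, ← pow_mul]
  have hwinv : w * h⁻¹ * w⁻¹ = (h ^ 2)⁻¹ := by
    rw [← hw]
    group
  -- (4)
  have f4 : a⁻¹ * e * a = e ^ 2 := by
    rw [he]
    have h3 : a⁻¹ * h ^ 3 * a = w * h ^ 3 * w⁻¹ := by
      rw [ha]
      group
    rw [h3, conj_pow3, hw, ← pow_mul, ← pow_mul]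
  have hzh : (w * w) * h * (w * w)⁻¹ = h ^ 4 := by
    have h3 : (w * w) * h * (w * w)⁻¹ = w * (w * h * w⁻¹) * w⁻¹ := by group
    rw [h3, hw, conj_pow3, hw, ← pow_mul]
  have f5 : a⁻¹ * (w * w) * a = e ^ 4 * (w * w) := by
    have h4 : (w * w) * h ^ 2 = h ^ 8 * (w * w) := by
      rw [← mul_inv_eq_iff_eq_mul, conj_pow3, hzh, ← pow_mul]
    have h5 : a⁻¹ * (w * w) * a = w * (h ^ 2)⁻¹ * ((w * w) * h ^ 2) * w⁻¹ := by
      rw [ha]
      group
    have h6 : w * (h ^ 2)⁻¹ * (h ^ 8 * (w * w)) * w⁻¹ = (w * h ^ 6 * w⁻¹) * (w * w) := by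
      group
    rw [h5, h4, h6, conj_pow3, hw, he, ← pow_mul, ← pow_mul]
  refine ⟨e1 j, e2, hz, ?_, ?_, ?_⟩
  · show (cj a t j)⁻¹ * cj e t j * cj a t j = cj e t j ^ 2
    rw [← cj_inv', ← cj_mul', ← cj_mul', f4, cj_pow']
  · have h3 := congrArg (fun x => cj x t j) f5
    simp only [cj_mul', cj_inv', cj_pow'] at h3
    have h4 : cj w t j * cj w t j = w * w := by rw [← cj_mul', hzj]
    rw [h4] at h3
    exact h3
  · show cj a t j * cj a t j = cj e t j * (w * w)⁻¹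
    rw [← cj_mul', ← hzj, ← cj_inv', ← cj_mul', hedef]
    congr 1
    group

end Pool.Agent.Helper36.C2
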